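import Pool.Agent.V1114.DC.Cert

/-!
# The component count of divisor-function closures is not monotone

For real `r > 1` let `C r` be the number of connected components of the closure of
`{σ_{-r}(n) : n ≥ 1}`.  We prove `C (56/13) = 253` and `C (108/25) = 251`, although
`56/13 < 108/25`.
-/

set_option autoImplicit false

namespace Pool.Agent.Results.MP_9329f2_nt.NotMonotone

open Pool.Agent.V1114.DC

/-- The divisor function `σ_{-r}(n) = ∑_{d ∣ n} d ^ (-r)`. -/
noncomputable def sigmaNeg (r : ℝ) (n : ℕ) : ℝ := ∑ d ∈ n.divisors, (d : ℝ) ^ (-r)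

/-- The closure in `ℝ` of the set of values of `σ_{-r}` on the positive integers. -/
def closedRange (r : ℝ) : Set ℝ := closure {y | ∃ n : ℕ, 0 < n ∧ y = sigmaNeg r n}

/-- The number of connected components of `closedRange r` (as `Nat.card`). -/
noncomputable def numComponents (r : ℝ) : ℕ := Nat.card (ConnectedComponents (closedRange r))

theorem closedRange_eq (r : ℝ) : closedRange r = closure (B r []) := by
  have : {y | ∃ n : ℕ, 0 < n ∧ y = sigmaNeg r n} = B r [] := by
    ext y
    constructor
    · rintro ⟨n, hn, h⟩
      exact ⟨n, hn, by simp, h⟩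
    · rintro ⟨n, hn, _, h⟩
      exact ⟨n, hn, h⟩
  rw [closedRange, this]

/-- At `r = 56/13` there are (finitely many, namely) `253` components, at the larger exponent
`108/25` there are `251`; so the component count is not monotone on `(1, ∞)`. -/
theorem result :
    (Finite (ConnectedComponents (closedRange (56 / 13))) ∧ numComponents (56 / 13) = 253) ∧
    (Finite (ConnectedComponents (closedRange (108 / 25))) ∧ numComponents (108 / 25) = 251) ∧
    ¬ MonotoneOn numComponents (Set.Ioi 1) := by
  have h1 : Finite (ConnectedComponents (closedRange (56 / 13))) ∧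
      numComponents (56 / 13) = 253 := by
    have h := count1
    have e : (((56 : ℕ) : ℝ) / ((13 : ℕ) : ℝ)) = 56 / 13 := by norm_num
    rw [e, ← closedRange_eq] at h
    exact h
  have h2 : Finite (ConnectedComponents (closedRange (108 / 25))) ∧
      numComponents (108 / 25) = 251 := by
    have h := count2
    have e : (((108 : ℕ) : ℝ) / ((25 : ℕ) : ℝ)) = 108 / 25 := by norm_num
    rw [e, ← closedRange_eq] at h
    exact h
  refine ⟨h1, h2, fun hm => ?_⟩
  have h3 : (56 / 13 : ℝ) ∈ Set.Ioi (1 : ℝ) := by
    rw [Set.mem_Ioi]; norm_num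
  have h4 : (108 / 25 : ℝ) ∈ Set.Ioi (1 : ℝ) := by
    rw [Set.mem_Ioi]; norm_num
  have h5 := hm h3 h4 (by norm_num)
  rw [h1.2, h2.2] at h5
  omega

end Pool.Agent.Results.MP_9329f2_nt.NotMonotone
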